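import Mathlib

set_option autoImplicit false
open Filter Topology Set

/-!
# C(K) is LUR renormable for every descriptive compact space: definitions and module statements

Full proof on paper: /team-store/PLAN_LUR.md.
-/

namespace LUR

/-! ## Square seminorms -/

/-- `q` is the square of a seminorm. -/
structure SqS {X : Type} [AddCommGroup X] [Module ℝ X] (q : X → ℝ) : Prop where
  nonneg : ∀ f, 0 ≤ q f
  smul : ∀ (t : ℝ) f, q (t • f) = t ^ 2 * q f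
  add : ∀ f g, ∀ t : ℝ, 0 < t → q (f + g) ≤ (1 + t) * q f + (1 + 1 / t) * q g

/-- A seminorm as a plain function. -/
structure Smn {X : Type} [AddCommGroup X] [Module ℝ X] (q : X → ℝ) : Prop where
  nonneg : ∀ f, 0 ≤ q f
  smul : ∀ (t : ℝ) f, q (t • f) = |t| * q f
  add : ∀ f g, q (f + g) ≤ q f + q g

/-- The parallelogram defect. -/
def Dl {X : Type} [AddCommGroup X] (q : X → ℝ) (f g : X) : ℝ :=
  2 * q f + 2 * q g - q (f + g)

/-! ## Module statements, analytic part -/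

/-- SQ1: closure properties of square seminorms. -/
def SQ1 : Prop :=
  ∀ (X : Type) [AddCommGroup X] [Module ℝ X],
    (∀ q₁ q₂ : X → ℝ, SqS q₁ → SqS q₂ → SqS (fun f => q₁ f + q₂ f)) ∧
    (∀ (c : ℝ) (q : X → ℝ), 0 ≤ c → SqS q → SqS (fun f => c * q f)) ∧
    (∀ q : X → ℝ, Smn q → SqS (fun f => q f ^ 2)) ∧
    (∀ (ι : Type) (q : ι → X → ℝ), (∀ i, SqS (q i)) →
      (∀ f, BddAbove (range fun i => q i f)) → SqS (fun f => ⨆ i, q i f)) ∧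
    (∀ q : ℕ → X → ℝ, (∀ i, SqS (q i)) → (∀ f, Summable fun i => q i f) →
      SqS (fun f => ∑' i, q i f))

/-- SQ2: the square root of a square seminorm is a seminorm; defects. -/
def SQ2 : Prop :=
  ∀ (X : Type) [AddCommGroup X] [Module ℝ X],
    (∀ q : X → ℝ, SqS q → ∃ p : Seminorm ℝ X, ∀ f, p f = Real.sqrt (q f)) ∧
    (∀ q : X → ℝ, SqS q → ∀ f g, 0 ≤ Dl q f g) ∧
    (∀ q : X → ℝ, Smn q → ∀ f g, (q f - q g) ^ 2 ≤ Dl (fun h => q h ^ 2) f g)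

/-- STEP: the quantitative isolation lemma. -/
def STEP : Prop :=
  ∀ (X : Type) [AddCommGroup X] [Module ℝ X] (Out : Type)
    (φ q : Out → X → ℝ) (η B δ : ℝ) (f g : X) (T : Out),
    (∀ S, Smn (φ S)) → (∀ S, SqS (q S)) → 0 < η → 0 < δ →
    (∀ h, BddAbove (range fun S => φ S h ^ 2 + η * q S h)) →
    (∀ S, q S f ≤ B) → η * B ≤ δ ^ 2 / 2 →
    (∀ S, S ≠ T → φ S f ≤ φ T f - δ) →
    Dl (fun h => ⨆ S, (φ S h ^ 2 + η * q S h)) f g < δ ^ 2 / 2 →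
    Dl (q T) f g ≤ Dl (fun h => ⨆ S, (φ S h ^ 2 + η * q S h)) f g / η

/-- SUMN: one norm from countably many bounded square seminorms. -/
def SUMN : Prop :=
  ∀ (X : Type) [NormedAddCommGroup X] [NormedSpace ℝ X] (q : ℕ → X → ℝ),
    (∀ i, SqS (q i)) → (∀ i, ∃ B : ℝ, ∀ f, q i f ≤ B * ‖f‖ ^ 2) →
    ∃ p : Seminorm ℝ X,
      (∃ a b : ℝ, 0 < a ∧ 0 < b ∧ ∀ f, a * ‖f‖ ≤ p f ∧ p f ≤ b * ‖f‖) ∧
      ∀ (f : X) (u : ℕ → X),
        Tendsto (fun n => p (u n)) atTop (𝓝 (p f)) →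
        Tendsto (fun n => p (u n + f)) atTop (𝓝 (2 * p f)) →
        ∀ i, Tendsto (fun n => Dl (q i) f (u n)) atTop (𝓝 0)

/-- States reached at `f`: follow a move when its outcome is the unique maximiser with a gap. -/
inductive Reach {X St Out : Type} (φ : ℕ → St → Out → X → ℝ) (nxt : ℕ → St → Out → St)
    (x0 : St) (f : X) : St → Prop
  | base : Reach φ nxt x0 f x0
  | step (μ : ℕ) (x : St) (T : Out) (δ : ℝ) : Reach φ nxt x0 f x → 0 < δ →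
      (∀ S, S ≠ T → φ μ x S f ≤ φ μ x T f - δ) → Reach φ nxt x0 f (nxt μ x T)

/-- ABS: the abstract renorming theorem. -/
def ABS : Prop :=
  ∀ (X : Type) [NormedAddCommGroup X] [NormedSpace ℝ X] (St Out : Type)
    (φ : ℕ → St → Out → X → ℝ) (nxt : ℕ → St → Out → St) (ψ : ℕ → St → X → ℝ) (x0 : St),
    (∀ μ x T, Smn (φ μ x T)) → (∀ μ, ∃ B : ℝ, ∀ x T f, φ μ x T f ≤ B * ‖f‖) →
    (∀ n x, SqS (ψ n x)) → (∀ n, ∃ B : ℝ, ∀ x f, ψ n x f ≤ B * ‖f‖ ^ 2) →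
    ∃ p : Seminorm ℝ X,
      (∃ a b : ℝ, 0 < a ∧ 0 < b ∧ ∀ f, a * ‖f‖ ≤ p f ∧ p f ≤ b * ‖f‖) ∧
      ∀ (f : X) (u : ℕ → X),
        Tendsto (fun n => p (u n)) atTop (𝓝 (p f)) →
        Tendsto (fun n => p (u n + f)) atTop (𝓝 (2 * p f)) →
        ∀ x, Reach φ nxt x0 f x → ∀ n, Tendsto (fun r => Dl (ψ n x) f (u r)) atTop (𝓝 0)

/-! ## Topological part -/

/-- Oscillation of `f` on `S` around the value at `s`. -/
noncomputable def osc {K : Type} [TopologicalSpace K] (S : Set K) (s : K) (f : C(K, ℝ)) : ℝ :=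
  ⨆ z : S, |f z - f s|

/-- OSC: elementary properties of `osc`. -/
def OSC : Prop :=
  ∀ (K : Type) [TopologicalSpace K] [CompactSpace K] (S : Set K) (s : K),
    Smn (osc S s : C(K, ℝ) → ℝ) ∧ (∀ f : C(K, ℝ), osc S s f ≤ 2 * ‖f‖) ∧
    (∀ (f : C(K, ℝ)), ∀ z ∈ S, |f z - f s| ≤ osc S s f) ∧
    (∀ (f : C(K, ℝ)) (b : ℝ), 0 ≤ b → (∀ z ∈ S, |f z - f s| ≤ b) → osc S s f ≤ b)

/-- Level data: countably many closed sets `F i` with pairwise disjoint relatively open subsets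
`V i N`, and open sets `O N` around them. -/
structure Lev (K ι : Type) [TopologicalSpace K] where
  F : ℕ → Set K
  V : ℕ → ι → Set K
  O : ι → Set K
  closedF : ∀ i, IsClosed (F i)
  subF : ∀ i N, V i N ⊆ F i
  closedDiff : ∀ i (A : Set ι), IsClosed (F i \ ⋃ N ∈ A, V i N)
  disj : ∀ i N M, N ≠ M → Disjoint (V i N) (V i M)
  openO : ∀ N, IsOpen (O N)
  subO : ∀ i N, V i N ⊆ O N
  elig : ∀ H : Set K, IsClosed H → H.Nonempty →
    ∃ i, (H ∩ F i).Nonempty ∧ H ∩ (F i \ ⋃ N, V i N) = ∅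

/-- The frozen hypothesis. -/
def Descr (K : Type) [TopologicalSpace K] (Fam : ℕ → Set (Set K)) : Prop :=
  (∀ n : ℕ, ∀ N ∈ Fam n, ∀ x ∈ N, ∃ U : Set K, IsOpen U ∧ x ∈ U ∧
      ∀ M ∈ Fam n, M ≠ N → Disjoint U M) ∧
  (∀ x : K, ∀ U : Set K, IsOpen U → x ∈ U → ∃ n : ℕ, ∃ N ∈ Fam n, x ∈ N ∧ N ⊆ U)

/-- RANK1: a rank function for a disjoint family of relatively open subsets of a closed set. -/
def RANK1 : Prop :=
  ∀ (K : Type) [TopologicalSpace K] (Φ : Set K) (I : Set (Set K)) (W : Set K → Set K),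
    IsClosed Φ → (∀ A : Set (Set K), A ⊆ I → IsClosed (Φ \ ⋃ N ∈ A, W N)) →
    (∀ N ∈ I, W N ⊆ Φ) → (∀ N ∈ I, ∀ M ∈ I, N ≠ M → Disjoint (W N) (W M)) →
    ∃ r : K → Ordinal.{0}, (∀ a, IsClosed {x | a ≤ r x}) ∧
      (∀ x y, r x = r y → ∀ N ∈ I, x ∈ W N → y ∈ W N)

/-- CLO: closing up an isolated family (index set `ι`, pieces `P N`). -/
def CLO : Prop :=
  ∀ (K : Type) [TopologicalSpace K] (ι : Type) (P : ι → Set K),
    (∀ N, ∀ x ∈ P N, ∃ U : Set K, IsOpen U ∧ x ∈ U ∧ ∀ M, M ≠ N → Disjoint U (P M)) →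
    ∃ (F : Set K) (W : ι → Set K), IsClosed F ∧ (∀ N, P N ⊆ W N) ∧ (∀ N, W N ⊆ F) ∧
      (∀ N, W N ⊆ closure (P N)) ∧ (∀ N M, N ≠ M → Disjoint (W N) (W M)) ∧
      (∀ A : Set ι, IsClosed (F \ ⋃ N ∈ A, W N))

/-- RANKS: separating upper semicontinuous rank functions. -/
def RANKS : Prop :=
  ∀ (K : Type) [TopologicalSpace K] [CompactSpace K] [T2Space K] (Fam : ℕ → Set (Set K)),
    Descr K Fam →
    ∃ r : ℕ → K → Ordinal.{0}, (∀ l a, IsClosed {x | a ≤ r l x}) ∧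
      (∀ x y, (∀ l, r l x = r l y) → x = y)

/-- MAXR: upper semicontinuous ranks attain their maximum. -/
def MAXR : Prop :=
  ∀ (K : Type) [TopologicalSpace K] [CompactSpace K] (r : K → Ordinal.{0}),
    (∀ a, IsClosed {x | a ≤ r x}) → ∀ C : Set K, IsClosed C → C.Nonempty →
    ∃ x ∈ C, ∀ y ∈ C, r y ≤ r x

/-- ELIG: from countably many closed-up families covering `K` to the eligibility property. -/
def ELIG : Prop :=
  ∀ (K : Type) [TopologicalSpace K] [CompactSpace K] (ι : Type)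
    (F : ℕ → Set K) (W : ℕ → ι → Set K) (O : ι → Set K),
    (∀ j, IsClosed (F j)) → (∀ j N, W j N ⊆ F j) →
    (∀ j N M, N ≠ M → Disjoint (W j N) (W j M)) →
    (∀ j (A : Set ι), IsClosed (F j \ ⋃ N ∈ A, W j N)) →
    (∀ N, IsOpen (O N)) → (∀ j N, W j N ⊆ O N) →
    (∀ x : K, ∃ j N, x ∈ W j N) →
    ∃ Λ : Lev K ι, Λ.O = O ∧ ∀ i N, ∀ y ∈ Λ.V i N, ∃ j, y ∈ W j N

/-- LEVEL: level data of level `n` from a descriptive family. -/
def LEVEL : Prop :=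
  ∀ (K : Type) [TopologicalSpace K] [CompactSpace K] [T2Space K] (Fam : ℕ → Set (Set K)),
    Descr K Fam → ∀ r : ℕ → K → Ordinal.{0}, (∀ l a, IsClosed {x | a ≤ r l x}) → ∀ n : ℕ,
    ∃ Λ : Lev K (Set K), ∀ i N, ∀ y ∈ Λ.V i N, ∀ z ∈ closure (Λ.O N), ∀ l < n, r l z ≤ r l y

/-- TERM: the covering process terminates. -/
def TERM : Prop :=
  ∀ (K : Type) [TopologicalSpace K] [CompactSpace K] (F G : ℕ → Set K),
    (∀ i, IsClosed (F i)) → (∀ i, IsClosed (G i)) →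
    (∀ H : Set K, IsClosed H → H.Nonempty → ∃ i, (H ∩ F i).Nonempty ∧ H ∩ G i = ∅) →
    ∀ (H : ℕ → Set K) (i : ℕ → ℕ), (∀ k, IsClosed (H k)) → (∀ k, (H k).Nonempty) →
    (∀ k, H (k + 1) ⊆ H k) → (∀ k, (H k ∩ F (i k)).Nonempty) →
    (∀ k j, (H k ∩ F j).Nonempty → H k ∩ G j = ∅ → i k ≤ j) →
    (∀ k, H (k + 1) ∩ F (i k) = ∅) → False

/-- GAP: the pieces meeting a closed set are finitely many and are isolated by suprema. -/
def GAP : Prop :=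
  ∀ (K : Type) [TopologicalSpace K] [CompactSpace K] (ι : Type) (Λ : Lev K ι) (D : Set K)
    (s : K) (f : C(K, ℝ)) (c : ℝ) (i : ℕ), IsClosed D → 0 < c →
    ((D ∩ {z | c ≤ |f z - f s|}) ∩ Λ.F i).Nonempty →
    (D ∩ {z | c ≤ |f z - f s|}) ∩ (Λ.F i \ ⋃ N, Λ.V i N) = ∅ →
    ∃ (T : Finset ι) (δ : ℝ), 0 < δ ∧
      (∀ N ∈ T, (Λ.V i N ∩ (D ∩ {z | c ≤ |f z - f s|})).Nonempty) ∧
      (D ∩ {z | c ≤ |f z - f s|}) ∩ Λ.F i ⊆ ⋃ N ∈ T, Λ.V i N ∧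
      δ ≤ ∑ N ∈ T, osc (D ∩ Λ.V i N) s f ∧
      ∀ T' : Finset ι, T'.card = T.card → T' ≠ T →
        ∑ N ∈ T', osc (D ∩ Λ.V i N) s f ≤ ∑ N ∈ T, osc (D ∩ Λ.V i N) s f - δ

/-- The points of `C` with lexicographically maximal ranks `r 0, ..., r (n-1)`. -/
def Ltop {K : Type} (r : ℕ → K → Ordinal.{0}) : ℕ → Set K → Set K
  | 0, C => C
  | n + 1, C => {x | x ∈ Ltop r n C ∧ ∀ y ∈ Ltop r n C, r n y ≤ r n x}

/-- Reachability interface used by the covering theorem. -/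
structure RData (K ι : Type) [TopologicalSpace K] (Λ : ℕ → Lev K ι) (s : ℕ → Set K → K)
    (f : C(K, ℝ)) (R : Set K → Set K → Prop) : Prop where
  base : R univ univ
  closedC : ∀ C D, R C D → IsClosed C
  closedD : ∀ C D, R C D → IsClosed D
  sub : ∀ C D, R C D → D ⊆ C
  step : ∀ (n i : ℕ) (C D : Set K) (T : Finset ι) (δ : ℝ), R C D → 0 < δ →
    δ ≤ ∑ N ∈ T, osc (D ∩ (Λ n).V i N) (s n C) f →
    (∀ T' : Finset ι, T'.card = T.card → T' ≠ T →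
      ∑ N ∈ T', osc (D ∩ (Λ n).V i N) (s n C) f ≤
        ∑ N ∈ T, osc (D ∩ (Λ n).V i N) (s n C) f - δ) →
    R C (D \ ⋃ N ∈ T, (Λ n).O N) ∧
    ∀ N ∈ T, R (C ∩ closure ((Λ n).O N)) (C ∩ closure ((Λ n).O N))

/-- `A` is covered by finitely many reached sets on which `f` is close to its value at the
selected point. -/
def Good {K : Type} [TopologicalSpace K] (s : ℕ → Set K → K)
    (f : C(K, ℝ)) (R : Set K → Set K → Prop) (ε : ℝ) (A : Set K) : Prop :=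
  ∃ 𝒟 : Set (Set K × Set K × ℕ), 𝒟.Finite ∧
    (∀ q ∈ 𝒟, R q.1 q.2.1 ∧ ∀ z ∈ q.2.1, |f z - f (s q.2.2 q.1)| < ε) ∧
    A ⊆ ⋃ q ∈ 𝒟, q.2.1

/-- GSTEP: if all the pieces found around the far part are good then `C` is good. -/
def GSTEP : Prop :=
  ∀ (K : Type) [TopologicalSpace K] [CompactSpace K] (ι : Type) (Λ : ℕ → Lev K ι)
    (s : ℕ → Set K → K) (f : C(K, ℝ)) (R : Set K → Set K → Prop), RData K ι Λ s f R →
    ∀ (ε : ℝ), 0 < ε → ∀ (C : Set K) (n : ℕ), R C C →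
    (∀ i N, (Λ n).V i N ∩ (C ∩ {z | ε ≤ |f z - f (s n C)|}) ≠ ∅ →
      R (C ∩ closure ((Λ n).O N)) (C ∩ closure ((Λ n).O N)) →
      Good s f R ε (C ∩ closure ((Λ n).O N))) →
    Good s f R ε C

/-- The inductive predicate of the minimality chain. -/
structure PMin {K : Type} (r : ℕ → K → Ordinal.{0}) (Q : Set K → Prop) (n : ℕ)
    (C Z : Set K) : Prop where
  mem : Q C
  hit : ∀ C', C' ⊆ C → Q C' → (C' ∩ Z).Nonempty
  top : ∀ C', C' ⊆ C → Q C' → Ltop r n C' = C' ∩ Z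
  eqr : ∀ x ∈ C ∩ Z, ∀ y ∈ C ∩ Z, ∀ l < n, r l x = r l y
  low : ∀ y ∈ C, y ∉ Z → ∃ l < n, ∀ z ∈ Z, r l y < r l z

/-- MINS: one step of the minimality chain (`Q` = reached and not good). -/
def MINS : Prop :=
  ∀ (K : Type) [TopologicalSpace K] [CompactSpace K] (r : ℕ → K → Ordinal.{0}),
    (∀ l a, IsClosed {x | a ≤ r l x}) → ∀ (Q : Set K → Prop), (∀ C, Q C → IsClosed C) →
    ∀ (n : ℕ) (C Z : Set K), IsClosed Z → PMin r Q n C Z →
    ∃ C' Z', C' ⊆ C ∧ Z' ⊆ Z ∧ IsClosed Z' ∧ PMin r Q (n + 1) C' Z'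

/-- CHAIN: if some `Q`-set exists (all nonempty, closed) then for every continuous `f` and
`ε > 0` there is a level at which `f` is almost constant on `C ∩ Z`. -/
def CHAIN : Prop :=
  ∀ (K : Type) [TopologicalSpace K] [CompactSpace K] (r : ℕ → K → Ordinal.{0}),
    (∀ l a, IsClosed {x | a ≤ r l x}) → (∀ x y, (∀ l, r l x = r l y) → x = y) →
    ∀ (Q : Set K → Prop), (∀ C, Q C → IsClosed C) → (∀ C, Q C → C.Nonempty) →
    ∀ C0, Q C0 → ∀ (f : C(K, ℝ)) (ε : ℝ), 0 < ε →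
    ∃ (n : ℕ) (C Z : Set K), C ⊆ C0 ∧ PMin r Q n C Z ∧
      ∀ x ∈ C ∩ Z, ∀ y ∈ C ∩ Z, |f x - f y| < ε

/-- COVER: the covering theorem. -/
def COVER : Prop :=
  ∀ (K : Type) [TopologicalSpace K] [CompactSpace K] (ι : Type) (Λ : ℕ → Lev K ι)
    (r : ℕ → K → Ordinal.{0}), (∀ l a, IsClosed {x | a ≤ r l x}) →
    (∀ x y, (∀ l, r l x = r l y) → x = y) →
    (∀ n i N, ∀ y ∈ (Λ n).V i N, ∀ z ∈ closure ((Λ n).O N), ∀ l < n, r l z ≤ r l y) →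
    ∀ (s : ℕ → Set K → K), (∀ n C, IsClosed C → C.Nonempty → s n C ∈ Ltop r n C) →
    ∀ (f : C(K, ℝ)) (R : Set K → Set K → Prop), RData K ι Λ s f R →
    ∀ ε : ℝ, 0 < ε → Good s f R ε univ

/-- SEL: a selection from the top sets. -/
def SEL : Prop :=
  ∀ (K : Type) [TopologicalSpace K] [CompactSpace K] [Nonempty K] (r : ℕ → K → Ordinal.{0}),
    (∀ l a, IsClosed {x | a ≤ r l x}) →
    ∃ s : ℕ → Set K → K, ∀ n C, IsClosed C → C.Nonempty → s n C ∈ Ltop r n C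

/-- FIN: the frozen statement for one space. -/
def FIN : Prop :=
  ∀ (K : Type) [TopologicalSpace K] [CompactSpace K] [T2Space K] (Fam : ℕ → Set (Set K)),
    Descr K Fam →
    ∃ p : Seminorm ℝ C(K, ℝ),
      (∃ a b : ℝ, 0 < a ∧ 0 < b ∧ ∀ f : C(K, ℝ), a * ‖f‖ ≤ p f ∧ p f ≤ b * ‖f‖) ∧
      ∀ (f : C(K, ℝ)) (u : ℕ → C(K, ℝ)),
        Tendsto (fun n => p (u n)) atTop (𝓝 (p f)) →
        Tendsto (fun n => p (u n + f)) atTop (𝓝 (2 * p f)) →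
        Tendsto (fun n => p (u n - f)) atTop (𝓝 0)

end LUR
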