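import Pool.Agent.Helper92_LUR.Defs

set_option autoImplicit false
open Filter Topology Set

namespace LUR

section

variable {X : Type} [NormedAddCommGroup X] [NormedSpace ℝ X] {St Out : Type}

/-- value functionals of scripts -/
noncomputable def Qs (φ : ℕ → St → Out → X → ℝ) (nxt : ℕ → St → Out → St)
    (ψ : ℕ → St → X → ℝ) (n : ℕ) : List (ℕ × ℕ) → St → X → ℝ
  | [], x, f => ψ n x f
  | a :: L, x, f => ⨆ T : Out, (φ a.1 x T f ^ 2 + (1 / 2 : ℝ) ^ a.2 * Qs φ nxt ψ n L (nxt a.1 x T) f)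

theorem qs_spec (hSQ : SQ1) (φ : ℕ → St → Out → X → ℝ) (nxt : ℕ → St → Out → St)
    (ψ : ℕ → St → X → ℝ)
    (hφ : ∀ μ x T, Smn (φ μ x T)) (hφB : ∀ μ, ∃ B : ℝ, ∀ x T f, φ μ x T f ≤ B * ‖f‖)
    (hψ : ∀ n x, SqS (ψ n x)) (hψB : ∀ n, ∃ B : ℝ, ∀ x f, ψ n x f ≤ B * ‖f‖ ^ 2) (n : ℕ)
    (L : List (ℕ × ℕ)) :
    (∀ x, SqS (Qs φ nxt ψ n L x)) ∧ ∃ B : ℝ, 0 ≤ B ∧ ∀ x f, Qs φ nxt ψ n L x f ≤ B * ‖f‖ ^ 2 := by
  obtain ⟨sAdd, sMul, sSq, sSup, -⟩ := hSQ X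
  induction L with
  | nil =>
    obtain ⟨B, hB⟩ := hψB n
    refine ⟨fun x => hψ n x, max B 0, le_max_right _ _, fun x f => ?_⟩
    exact (hB x f).trans (mul_le_mul_of_nonneg_right (le_max_left _ _) (by positivity))
  | cons a L ih =>
    obtain ⟨ih1, B, hB0, hB⟩ := ih
    obtain ⟨C, hC⟩ := hφB a.1
    have hterm : ∀ x T f, φ a.1 x T f ^ 2 + (1 / 2 : ℝ) ^ a.2 * Qs φ nxt ψ n L (nxt a.1 x T) f ≤
        (C ^ 2 + B) * ‖f‖ ^ 2 := by
      intro x T f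
      have h1 : φ a.1 x T f ^ 2 ≤ (C * ‖f‖) ^ 2 :=
        pow_le_pow_left₀ ((hφ _ _ _).nonneg f) (hC x T f) 2
      have h2 : (1 / 2 : ℝ) ^ a.2 * Qs φ nxt ψ n L (nxt a.1 x T) f ≤
          1 * Qs φ nxt ψ n L (nxt a.1 x T) f :=
        mul_le_mul_of_nonneg_right (pow_le_one₀ (by norm_num) (by norm_num)) ((ih1 _).nonneg f)
      have h3 := hB (nxt a.1 x T) f
      nlinarith
    refine ⟨fun x => ?_, C ^ 2 + B, by positivity, fun x f => ?_⟩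
    · refine sSup Out _ (fun T => sAdd _ _ (sSq _ (hφ _ _ _)) (sMul _ _ (by positivity) (ih1 _))) ?_
      intro f
      refine ⟨(C ^ 2 + B) * ‖f‖ ^ 2, ?_⟩
      rintro _ ⟨T, rfl⟩
      exact hterm x T f
    · exact Real.iSup_le (fun T => hterm x T f) (by positivity)

end

theorem abs_of (hSQ : SQ1) (hSQ2 : SQ2) (hSTEP : STEP) (hSUM : SUMN) : ABS := by
  intro X _ _ St Out φ nxt ψ x0 hφ hφB hψ hψB
  have spec := qs_spec hSQ φ nxt ψ hφ hφB hψ hψB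
  obtain ⟨p, hpab, hp⟩ := hSUM X
    (fun i => Qs φ nxt ψ (Denumerable.ofNat (List (ℕ × ℕ) × ℕ) i).2
      (Denumerable.ofNat (List (ℕ × ℕ) × ℕ) i).1 x0)
    (fun i => (spec _ _).1 x0)
    (fun i => by
      obtain ⟨B, -, hB⟩ := (spec (Denumerable.ofNat (List (ℕ × ℕ) × ℕ) i).2
        (Denumerable.ofNat (List (ℕ × ℕ) × ℕ) i).1).2
      exact ⟨B, fun f => hB x0 f⟩)
  refine ⟨p, hpab, ?_⟩
  intro f u h1 h2 x hx
  have h0 : ∀ (n : ℕ) (L : List (ℕ × ℕ)),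
      Tendsto (fun r => Dl (Qs φ nxt ψ n L x0) f (u r)) atTop (𝓝 0) := by
    intro n L
    have h := hp f u h1 h2 (Encodable.encode (L, n))
    simpa only [Denumerable.ofNat_encode] using h
  have main : ∀ (n : ℕ) (L : List (ℕ × ℕ)),
      Tendsto (fun r => Dl (Qs φ nxt ψ n L x) f (u r)) atTop (𝓝 0) := by
    induction hx with
    | base => exact h0
    | step μ x T δ hx hδ hgap ih =>
      intro n L
      obtain ⟨hS, B, hB0, hB⟩ := spec n L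
      obtain ⟨k, hk⟩ : ∃ k : ℕ, (1 / 2 : ℝ) ^ k * (B * ‖f‖ ^ 2) ≤ δ ^ 2 / 2 := by
        have ht : Tendsto (fun k : ℕ => (1 / 2 : ℝ) ^ k * (B * ‖f‖ ^ 2)) atTop
            (𝓝 (0 * (B * ‖f‖ ^ 2))) :=
          (tendsto_pow_atTop_nhds_zero_of_lt_one (by norm_num) (by norm_num)).mul_const _
        rw [zero_mul] at ht
        have := ht.eventually (gt_mem_nhds (show (0 : ℝ) < δ ^ 2 / 2 by positivity))
        obtain ⟨k, hk⟩ := this.exists
        exact ⟨k, hk.le⟩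
      have hη : (0 : ℝ) < (1 / 2 : ℝ) ^ k := by positivity
      have hlim := ih n ((μ, k) :: L)
      obtain ⟨C, hC⟩ := hφB μ
      have hbdd : ∀ h, BddAbove (range fun S => φ μ x S h ^ 2 +
          (1 / 2 : ℝ) ^ k * Qs φ nxt ψ n L (nxt μ x S) h) := by
        intro h
        refine ⟨(C * ‖h‖) ^ 2 + (1 / 2 : ℝ) ^ k * (B * ‖h‖ ^ 2), ?_⟩
        rintro _ ⟨S, rfl⟩
        exact add_le_add (pow_le_pow_left₀ ((hφ _ _ _).nonneg h) (hC x S h) 2)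
          (mul_le_mul_of_nonneg_left (hB _ _) hη.le)
      have hstep : ∀ᶠ r in atTop, Dl (Qs φ nxt ψ n L (nxt μ x T)) f (u r) ≤
          Dl (Qs φ nxt ψ n ((μ, k) :: L) x) f (u r) / (1 / 2 : ℝ) ^ k := by
        have hev := hlim.eventually (gt_mem_nhds (show (0 : ℝ) < δ ^ 2 / 2 by positivity))
        filter_upwards [hev] with r hr
        exact hSTEP X Out (fun S => φ μ x S) (fun S => Qs φ nxt ψ n L (nxt μ x S))
          ((1 / 2 : ℝ) ^ k) (B * ‖f‖ ^ 2) δ f (u r) T (fun S => hφ μ x S) (fun S => hS _) hη hδ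
          hbdd (fun S => hB _ _) hk hgap hr
      refine squeeze_zero' (Eventually.of_forall fun r => (hSQ2 X).2.1 _ (hS _) _ _) hstep ?_
      have := hlim.div_const ((1 / 2 : ℝ) ^ k)
      simpa using this
  intro n
  exact main n []

end LUR
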