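import Pool.Agent.Helper92_LUR.Defs

set_option autoImplicit false
open Filter Topology Set

namespace LUR.H92

theorem maxr : MAXR := by
  intro K _ _ r hr C hC hne
  by_contra hcon
  push Not at hcon
  -- open cover
  have hK : IsCompact C := hC.isCompact
  obtain ⟨t, ht⟩ := hK.elim_finite_subcover (fun y : C => {z | r z < r y})
    (fun y => by
      have : {z | r z < r (y : K)} = {z | r (y : K) ≤ r z}ᶜ := by
        ext z; simp
      rw [this]; exact (hr _).isOpen_compl)
    (by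
      intro x hx
      obtain ⟨y, hy, hlt⟩ := hcon x hx
      exact mem_iUnion.2 ⟨⟨y, hy⟩, hlt⟩)
  have htne : t.Nonempty := by
    obtain ⟨x, hx⟩ := hne
    have := ht hx
    simp only [mem_iUnion] at this
    obtain ⟨y, hy, -⟩ := this
    exact ⟨y, hy⟩
  obtain ⟨y, hy, hmax⟩ := t.exists_max_image (fun y : C => r y) htne
  have := ht y.2
  simp only [mem_iUnion] at this
  obtain ⟨z, hz, hlt⟩ := this
  exact absurd (hmax z hz) (not_le.2 hlt)

theorem osc_thm : OSC := by
  intro K _ _ S s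
  have hb : ∀ f : C(K, ℝ), ∀ z : K, |f z - f s| ≤ 2 * ‖f‖ := by
    intro f z
    have h1 := f.norm_coe_le_norm z
    have h2 := f.norm_coe_le_norm s
    rw [Real.norm_eq_abs] at h1 h2
    have := abs_sub (f z) (f s)
    linarith
  have hbdd : ∀ f : C(K, ℝ), BddAbove (range fun z : S => |f z - f s|) := by
    intro f
    refine ⟨2 * ‖f‖, ?_⟩
    rintro _ ⟨z, rfl⟩
    exact hb f z
  have hmem : ∀ (f : C(K, ℝ)), ∀ z ∈ S, |f z - f s| ≤ osc S s f := by
    intro f z hz
    exact le_ciSup (hbdd f) (⟨z, hz⟩ : S)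
  have hle : ∀ (f : C(K, ℝ)) (b : ℝ), 0 ≤ b → (∀ z ∈ S, |f z - f s| ≤ b) → osc S s f ≤ b := by
    intro f b hb0 h
    exact Real.iSup_le (fun z => h z z.2) hb0
  have hnn : ∀ f : C(K, ℝ), 0 ≤ osc S s f := fun f => Real.iSup_nonneg fun z => abs_nonneg _
  refine ⟨⟨hnn, ?_, ?_⟩, ?_, hmem, hle⟩
  · intro t f
    unfold osc
    rw [Real.mul_iSup_of_nonneg (abs_nonneg t)]
    congr 1
    ext z
    simp only [ContinuousMap.smul_apply, smul_eq_mul]
    rw [← mul_sub, abs_mul]
  · intro f g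
    refine hle _ _ (add_nonneg (hnn f) (hnn g)) ?_
    intro z hz
    have e : (f + g) z - (f + g) s = (f z - f s) + (g z - g s) := by
      simp only [ContinuousMap.add_apply]; ring
    rw [e]
    exact (abs_add_le _ _).trans (add_le_add (hmem f z hz) (hmem g z hz))
  · intro f
    exact hle f _ (by positivity) fun z _ => hb f z

theorem clo : CLO := by
  intro K _ ι P hP
  refine ⟨closure (⋃ N, P N), fun N => closure (⋃ M, P M) \ closure (⋃ M ∈ {M | M ≠ N}, P M),
    isClosed_closure, ?_, ?_, ?_, ?_, ?_⟩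
  · intro N x hx
    refine ⟨subset_closure (mem_iUnion.2 ⟨N, hx⟩), ?_⟩
    intro hcl
    obtain ⟨U, hU, hxU, hdis⟩ := hP N x hx
    rw [mem_closure_iff] at hcl
    obtain ⟨y, hyU, hy⟩ := hcl U hU hxU
    simp only [mem_iUnion] at hy
    obtain ⟨M, hM, hyM⟩ := hy
    exact Set.disjoint_left.1 (hdis M hM) hyU hyM
  · intro N; exact sdiff_subset
  · intro N x hx
    obtain ⟨hx1, hx2⟩ := hx
    have hsub : (⋃ M, P M) ⊆ P N ∪ ⋃ M ∈ {M | M ≠ N}, P M := by
      intro y hy
      obtain ⟨M, hM⟩ := mem_iUnion.1 hy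
      by_cases h : M = N
      · left; rw [← h]; exact hM
      · right; exact mem_biUnion (show M ∈ {M | M ≠ N} from h) hM
    have := closure_mono hsub hx1
    rw [closure_union] at this
    rcases this with h | h
    · exact h
    · exact absurd h hx2
  · intro N M hNM
    rw [Set.disjoint_left]
    rintro x ⟨hx1, hx2⟩ ⟨-, hx3⟩
    -- x in closure (P N) but closure (P N) is inside the removed set for M
    have hsub : (⋃ M', P M') ⊆ P N ∪ ⋃ M' ∈ {M' | M' ≠ N}, P M' := by
      intro y hy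
      obtain ⟨M', hM'⟩ := mem_iUnion.1 hy
      by_cases h : M' = N
      · left; rw [← h]; exact hM'
      · right; exact mem_biUnion (show M' ∈ {M' | M' ≠ N} from h) hM'
    have hc := closure_mono hsub hx1
    rw [closure_union] at hc
    rcases hc with h | h
    · exact hx3 (closure_mono (subset_biUnion_of_mem (u := P) (show N ∈ {M' | M' ≠ M} from hNM)) h)
    · exact hx2 h
  · intro A
    have e : closure (⋃ N, P N) \ ⋃ N ∈ A, (closure (⋃ M, P M) \ closure (⋃ M ∈ {M | M ≠ N}, P M)) =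
        closure (⋃ N, P N) ∩ ⋂ N ∈ A, closure (⋃ M ∈ {M | M ≠ N}, P M) := by
      ext x
      simp only [Set.mem_sdiff, mem_iUnion, exists_prop, mem_inter_iff, mem_iInter]
      constructor
      · rintro ⟨h1, h2⟩
        refine ⟨h1, fun N hN => ?_⟩
        by_contra h3
        exact h2 ⟨N, hN, h1, h3⟩
      · rintro ⟨h1, h2⟩
        refine ⟨h1, ?_⟩
        rintro ⟨N, hN, -, h3⟩
        exact h3 (h2 N hN)
    rw [e]
    exact isClosed_closure.inter (isClosed_biInter fun N _ => isClosed_closure)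

theorem ranks (h1 : RANK1) : RANKS := by
  intro K _ _ _ Fam hD
  obtain ⟨hiso, hnet⟩ := hD
  have key : ∀ l : ℕ, ∃ (W : Set K → Set K) (r : K → Ordinal.{0}),
      (∀ a, IsClosed {x | a ≤ r x}) ∧ (∀ N ∈ Fam l, N ⊆ W N) ∧
      (∀ N ∈ Fam l, W N ⊆ closure N) ∧
      (∀ x y, r x = r y → ∀ N ∈ Fam l, x ∈ W N → y ∈ W N) := by
    intro l
    obtain ⟨F, W, hF, hPW, hWF, hWc, hdis, hcl⟩ := clo K (Set K)
      (fun N => {x | x ∈ N ∧ N ∈ Fam l}) (by
        rintro N x ⟨hx, hN⟩
        obtain ⟨U, hU, hxU, hU2⟩ := hiso l N hN x hx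
        refine ⟨U, hU, hxU, fun M hM => ?_⟩
        rw [Set.disjoint_left]
        rintro y hyU ⟨hyM, hMF⟩
        exact Set.disjoint_left.1 (hU2 M hMF hM) hyU hyM)
    obtain ⟨r, hr, hrs⟩ := h1 K F (Fam l) W hF (fun A _ => hcl A) (fun N _ => hWF N)
      (fun N _ M _ h => hdis N M h)
    refine ⟨W, r, hr, ?_, ?_, hrs⟩
    · intro N hN x hx
      exact hPW N ⟨hx, hN⟩
    · intro N hN
      exact (hWc N).trans (closure_mono fun x hx => hx.1)
  choose W r hr hNW hWN hrs using key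
  refine ⟨r, hr, ?_⟩
  intro x y hxy
  by_contra hne
  obtain ⟨U, V, hU, hV, hxU, hyV, hUV⟩ := t2_separation hne
  obtain ⟨n, N, hN, hxN, hNU⟩ := hnet x U hU hxU
  have hy : y ∈ closure N := hWN n N hN (hrs n x y (hxy n) N hN (hNW n N hN hxN))
  obtain ⟨z, hzV, hzN⟩ := mem_closure_iff.1 hy V hV hyV
  exact Set.disjoint_left.1 hUV (hNU hzN) hzV

end LUR.H92
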