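import Pool.Agent.Helper92_LUR.Fin
import Pool.Agent.Helper92_LUR.Abs
import Pool.Agent.Helper92_LUR.Small
import Pool.Agent.Helper12_LUR.Elig
import Pool.Agent.Helper12_LUR.Term
import Pool.Agent.Helper18_LUR.Gap
import Pool.Agent.Helper18_LUR.Level
import Pool.Agent.Helper31_LUR.GSTEP
import Pool.Agent.Helper31_LUR.MINS
import Pool.Agent.Helper41_LUR.Chain
import Pool.Agent.Helper41_LUR.Cover
import Pool.Agent.Helper41_LUR.Sel
import Pool.Agent.Helper46_LUR.Rank1
import Pool.Agent.Helper46_LUR.Sumn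
import Pool.Agent.Helper54_LUR.Sq

set_option autoImplicit false
open Filter Topology Set

namespace LUR

/-- Assembly: the four remaining modules are hypotheses here. -/
theorem assemble (hCLO : CLO) (hMAXR : MAXR) (hOSC : OSC) (hRANKS : RANKS) : FIN := by
  have hsq1 : SQ1 := Helper54_LUR.sq1
  have hsq2 : SQ2 := Helper54_LUR.sq2
  have habs : ABS := abs_of hsq1 hsq2 Helper54_LUR.step (LUR.H46.sumn hsq1 hsq2)
  have hlevel : LEVEL := LUR.H18.level hCLO LUR.H12.elig
  have hgap : GAP := LUR.H18.gap hOSC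
  have hgstep : GSTEP := gstep LUR.H12.term hgap
  have hchain : CHAIN := chain (mins hMAXR)
  have hcover : COVER := cover hchain hgstep
  exact fin_of habs hOSC hlevel hRANKS (sel hMAXR) hcover hsq1 hsq2

/-- The full theorem. -/
theorem fin : FIN :=
  assemble LUR.H92.clo LUR.H92.maxr LUR.H92.osc_thm (LUR.H92.ranks LUR.H46.rank1)

end LUR
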