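import Pool.Agent.Helper92_LUR.Defs

set_option autoImplicit false
open Filter Topology Set

namespace LUR

section conc

variable {K : Type} [TopologicalSpace K]

/-- components of a move -/
def mvn (μ : ℕ) : ℕ := (Nat.unpair μ).1
def mvi (μ : ℕ) : ℕ := (Nat.unpair (Nat.unpair μ).2).1
def mvm (μ : ℕ) : ℕ := (Nat.unpair (Nat.unpair (Nat.unpair μ).2).2).1
def mvk (μ : ℕ) : ℕ := (Nat.unpair (Nat.unpair (Nat.unpair μ).2).2).2

def mk4 (n i m k : ℕ) : ℕ := Nat.pair n (Nat.pair i (Nat.pair m k))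

theorem mvn_mk (n i m k : ℕ) : mvn (mk4 n i m k) = n := by simp [mvn, mk4]
theorem mvi_mk (n i m k : ℕ) : mvi (mk4 n i m k) = i := by simp [mvi, mk4]
theorem mvm_mk (n i m k : ℕ) : mvm (mk4 n i m k) = m := by simp [mvm, mk4]
theorem mvk_mk (n i m k : ℕ) : mvk (mk4 n i m k) = k := by simp [mvk, mk4]

/-- concrete functionals -/
noncomputable def cphi (Λ : ℕ → Lev K (Set K)) (s : ℕ → Set K → K) (μ : ℕ) (x : Set K × Set K)
    (T : Finset (Set K)) (f : C(K, ℝ)) : ℝ :=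
  if T.card = mvm μ then ∑ N ∈ T, osc (x.2 ∩ (Λ (mvn μ)).V (mvi μ) N) (s (mvn μ) x.1) f else 0

/-- concrete transitions -/
noncomputable def cnxt (Λ : ℕ → Lev K (Set K)) (μ : ℕ) (x : Set K × Set K)
    (T : Finset (Set K)) : Set K × Set K :=
  if mvk μ = 0 then (x.1, x.2 \ ⋃ N ∈ T, (Λ (mvn μ)).O N)
  else (x.1 ∩ closure ((Λ (mvn μ)).O (T.toList.getD (mvk μ - 1) ∅)),
    x.1 ∩ closure ((Λ (mvn μ)).O (T.toList.getD (mvk μ - 1) ∅)))

/-- concrete terminal functionals -/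
noncomputable def cpsi (s : ℕ → Set K → K) (n : ℕ) (x : Set K × Set K) (f : C(K, ℝ)) : ℝ :=
  osc x.2 (s n x.1) f ^ 2 + (|f (s n x.1)|) ^ 2

theorem inv_reach (Λ : ℕ → Lev K (Set K)) (s : ℕ → Set K → K) (f : C(K, ℝ))
    (x : Set K × Set K)
    (h : Reach (cphi Λ s) (cnxt Λ) ((univ : Set K), (univ : Set K)) f x) :
    IsClosed x.1 ∧ IsClosed x.2 ∧ x.2 ⊆ x.1 := by
  induction h with
  | base => exact ⟨isClosed_univ, isClosed_univ, subset_rfl⟩
  | step μ x T δ hx hδ hgap ih =>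
    obtain ⟨h1, h2, h3⟩ := ih
    unfold cnxt
    split_ifs with hk
    · refine ⟨h1, ?_, ?_⟩
      · exact h2.sdiff (isOpen_biUnion fun N _ => (Λ (mvn μ)).openO N)
      · exact diff_subset.trans h3
    · exact ⟨h1.inter isClosed_closure, h1.inter isClosed_closure, subset_rfl⟩

theorem rdata [CompactSpace K] (hO : OSC) (Λ : ℕ → Lev K (Set K)) (s : ℕ → Set K → K)
    (f : C(K, ℝ)) :
    RData K (Set K) Λ s f
      (fun C D => Reach (cphi Λ s) (cnxt Λ) ((univ : Set K), (univ : Set K)) f (C, D)) := by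
  refine ⟨Reach.base, ?_, ?_, ?_, ?_⟩
  · intro C D h; exact (inv_reach Λ s f _ h).1
  · intro C D h; exact (inv_reach Λ s f _ h).2.1
  · intro C D h; exact (inv_reach Λ s f _ h).2.2
  · intro n i C D T δ hR hδ hle hgap
    have key : ∀ k : ℕ, ∀ S : Finset (Set K), S ≠ T →
        cphi Λ s (mk4 n i T.card k) (C, D) S f ≤ cphi Λ s (mk4 n i T.card k) (C, D) T f - δ := by
      intro k S hS
      unfold cphi
      rw [mvn_mk, mvi_mk, mvm_mk, if_pos rfl]
      split_ifs with hc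
      · exact hgap S hc hS
      · linarith
    refine ⟨?_, ?_⟩
    · have h := Reach.step (φ := cphi Λ s) (nxt := cnxt Λ) (mk4 n i T.card 0) (C, D) T δ hR hδ (key 0)
      have e : cnxt Λ (mk4 n i T.card 0) (C, D) T = (C, D \ ⋃ N ∈ T, (Λ n).O N) := by
        unfold cnxt
        rw [mvk_mk, if_pos rfl, mvn_mk]
      rw [e] at h
      exact h
    · intro N hN
      obtain ⟨p, hp, hpe⟩ := List.mem_iff_getElem.1 (Finset.mem_toList.2 hN)
      have h := Reach.step (φ := cphi Λ s) (nxt := cnxt Λ) (mk4 n i T.card (p + 1)) (C, D) T δ hR hδ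
        (key (p + 1))
      have e : cnxt Λ (mk4 n i T.card (p + 1)) (C, D) T =
          (C ∩ closure ((Λ n).O N), C ∩ closure ((Λ n).O N)) := by
        unfold cnxt
        rw [mvk_mk, if_neg (Nat.succ_ne_zero p), mvn_mk, Nat.add_sub_cancel]
        rw [List.getD_eq_getElem _ _ hp, hpe]
      rw [e] at h
      exact h

end conc

theorem smn_sum {X : Type} [AddCommGroup X] [Module ℝ X] {ι : Type} (T : Finset ι)
    (q : ι → X → ℝ) (h : ∀ i, Smn (q i)) : Smn (fun f => ∑ i ∈ T, q i f) := by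
  refine ⟨?_, ?_, ?_⟩
  · intro f; exact Finset.sum_nonneg fun i _ => (h i).nonneg f
  · intro t f
    rw [Finset.mul_sum]
    exact Finset.sum_congr rfl fun i _ => (h i).smul t f
  · intro f g
    rw [← Finset.sum_add_distrib]
    exact Finset.sum_le_sum fun i _ => (h i).add f g

theorem smn_eval {K : Type} [TopologicalSpace K] (s : K) :
    Smn (fun f : C(K, ℝ) => |f s|) := by
  refine ⟨?_, ?_, ?_⟩
  · intro f; exact abs_nonneg _
  · intro t f; simp [abs_mul]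
  · intro f g; simpa using abs_add_le (f s) (g s)

theorem fin_of (hABS : ABS) (hOSC : OSC) (hLEV : LEVEL) (hRK : RANKS) (hSEL : SEL)
    (hCOV : COVER) (hSQ : SQ1) (hSQ2 : SQ2) : FIN := by
  intro K _ _ _ Fam hD
  rcases isEmpty_or_nonempty K with hE | hNE
  · refine ⟨normSeminorm ℝ C(K, ℝ), ⟨1, 1, one_pos, one_pos, fun f => ?_⟩, ?_⟩
    · simp
    · intro f u _ _
      have : ∀ n, u n - f = 0 := fun n => by ext x; exact (hE.false x).elim
      simp [this]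
  obtain ⟨r, hr, hsep⟩ := hRK K Fam hD
  choose Λ hΛ using fun n => hLEV K Fam hD r hr n
  obtain ⟨s, hs⟩ := hSEL K r hr
  obtain ⟨sAdd, -, sSq, -, -⟩ := hSQ C(K, ℝ)
  have hφ : ∀ μ x T, Smn (cphi Λ s μ x T) := by
    intro μ x T
    unfold cphi
    by_cases hc : T.card = mvm μ
    · simp only [hc, if_true]
      exact smn_sum T _ fun N => (hOSC K _ _).1
    · simp only [hc, if_false]
      exact ⟨fun _ => le_rfl, fun t f => by simp, fun f g => by simp⟩
  have hφB : ∀ μ, ∃ B : ℝ, ∀ x T f, cphi Λ s μ x T f ≤ B * ‖f‖ := by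
    intro μ
    refine ⟨2 * (mvm μ : ℝ), fun x T f => ?_⟩
    unfold cphi
    split_ifs with hc
    · calc ∑ N ∈ T, osc (x.2 ∩ (Λ (mvn μ)).V (mvi μ) N) (s (mvn μ) x.1) f
          ≤ ∑ N ∈ T, 2 * ‖f‖ := Finset.sum_le_sum fun N _ => (hOSC K _ _).2.1 f
        _ = 2 * (mvm μ : ℝ) * ‖f‖ := by
            rw [Finset.sum_const, nsmul_eq_mul, hc]; ring
    · positivity
  have hψ : ∀ n x, SqS (cpsi s n x : C(K, ℝ) → ℝ) := by
    intro n x
    exact sAdd _ _ (sSq _ (hOSC K _ _).1) (sSq _ (smn_eval _))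
  have hψB : ∀ n, ∃ B : ℝ, ∀ x (f : C(K, ℝ)), cpsi s n x f ≤ B * ‖f‖ ^ 2 := by
    intro n
    refine ⟨5, fun x f => ?_⟩
    unfold cpsi
    have h1 := (hOSC K x.2 (s n x.1)).2.1 f
    have h0 := (hOSC K x.2 (s n x.1)).1.nonneg f
    have h2 : |f (s n x.1)| ≤ ‖f‖ := f.norm_coe_le_norm _
    have h3 := abs_nonneg (f (s n x.1))
    nlinarith [norm_nonneg f]
  obtain ⟨p, ⟨a, b, ha, hb, hab⟩, hp⟩ := hABS C(K, ℝ) (Set K × Set K) (Finset (Set K))
    (cphi Λ s) (cnxt Λ) (cpsi s) (univ, univ) hφ hφB hψ hψB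
  refine ⟨p, ⟨a, b, ha, hb, hab⟩, ?_⟩
  intro f u hu1 hu2
  have hreach := hp f u hu1 hu2
  have hnorm : Tendsto (fun n => ‖u n - f‖) atTop (𝓝 0) := by
    rw [Metric.tendsto_atTop]
    intro ε hε
    have hε' : 0 < ε / 8 := by linarith
    obtain ⟨𝒟, hfin, h𝒟, hcov⟩ := hCOV K (Set K) Λ r hr hsep hΛ s hs f _ (rdata hOSC Λ s f)
      (ε / 8) hε'
    have hev : ∀ᶠ n in atTop, ∀ q ∈ 𝒟,
        osc q.2.1 (s q.2.2 q.1) (u n) ≤ 2 * (ε / 8) ∧
          |u n (s q.2.2 q.1) - f (s q.2.2 q.1)| < ε / 8 := by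
      rw [Filter.eventually_all_finite hfin]
      intro q hq
      obtain ⟨hR, hsm⟩ := h𝒟 q hq
      have hoscf : osc q.2.1 (s q.2.2 q.1) f ≤ ε / 8 :=
        (hOSC K _ _).2.2.2 f _ hε'.le fun z hz => (hsm z hz).le
      have hlim := hreach _ hR q.2.2
      have hev := hlim.eventually (gt_mem_nhds (show (0 : ℝ) < (ε / 8) ^ 2 by positivity))
      filter_upwards [hev] with n hn
      have hsplit : Dl (cpsi s q.2.2 (q.1, q.2.1)) f (u n) =
          Dl (fun h : C(K, ℝ) => osc q.2.1 (s q.2.2 q.1) h ^ 2) f (u n) +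
          Dl (fun h : C(K, ℝ) => (|h (s q.2.2 q.1)|) ^ 2) f (u n) := by
        unfold Dl cpsi; ring
      have d1 := (hSQ2 C(K, ℝ)).2.2 _ (hOSC K q.2.1 (s q.2.2 q.1)).1 f (u n)
      have d2 : (f (s q.2.2 q.1) - u n (s q.2.2 q.1)) ^ 2 =
          Dl (fun h : C(K, ℝ) => (|h (s q.2.2 q.1)|) ^ 2) f (u n) := by
        unfold Dl
        simp only [sq_abs, ContinuousMap.add_apply]
        ring
      rw [hsplit, ← d2] at hn
      have e1 : (osc q.2.1 (s q.2.2 q.1) f - osc q.2.1 (s q.2.2 q.1) (u n)) ^ 2 < (ε / 8) ^ 2 := by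
        nlinarith [sq_nonneg (f (s q.2.2 q.1) - u n (s q.2.2 q.1))]
      have e2 : (f (s q.2.2 q.1) - u n (s q.2.2 q.1)) ^ 2 < (ε / 8) ^ 2 := by
        nlinarith [sq_nonneg (osc q.2.1 (s q.2.2 q.1) f - osc q.2.1 (s q.2.2 q.1) (u n))]
      have a1 := abs_lt_of_sq_lt_sq e1 hε'.le
      have a2 := abs_lt_of_sq_lt_sq e2 hε'.le
      constructor
      · have := (abs_lt.1 a1).1
        linarith
      · rw [abs_sub_comm]; exact a2
    obtain ⟨n0, hn0⟩ := eventually_atTop.1 hev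
    refine ⟨n0, fun n hn => ?_⟩
    rw [Real.dist_eq, sub_zero, abs_norm]
    have hle : ‖u n - f‖ ≤ ε / 2 := by
      rw [ContinuousMap.norm_le _ (by linarith)]
      intro z
      have hz : z ∈ ⋃ q ∈ 𝒟, q.2.1 := hcov (mem_univ z)
      simp only [mem_iUnion, exists_prop] at hz
      obtain ⟨q, hq, hzq⟩ := hz
      obtain ⟨b1, b2⟩ := hn0 n hn q hq
      have c1 := (h𝒟 q hq).2 z hzq
      have c2 := ((hOSC K q.2.1 (s q.2.2 q.1)).2.2.1 (u n) z hzq).trans b1
      rw [ContinuousMap.sub_apply, Real.norm_eq_abs]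
      have c3 : u n z - f z = (u n z - u n (s q.2.2 q.1)) +
          (u n (s q.2.2 q.1) - f (s q.2.2 q.1)) + (f (s q.2.2 q.1) - f z) := by ring
      rw [c3]
      have c4 := abs_add_le ((u n z - u n (s q.2.2 q.1)) + (u n (s q.2.2 q.1) - f (s q.2.2 q.1)))
        (f (s q.2.2 q.1) - f z)
      have c5 := abs_add_le (u n z - u n (s q.2.2 q.1)) (u n (s q.2.2 q.1) - f (s q.2.2 q.1))
      rw [abs_sub_comm (f z)] at c1
      linarith
    linarith
  have h0 : Tendsto (fun n => b * ‖u n - f‖) atTop (𝓝 0) := by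
    simpa using hnorm.const_mul b
  exact squeeze_zero (fun n => apply_nonneg p _) (fun n => (hab _).2) h0

end LUR
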